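import Pool.Agent.LibRE29.Final
import Pool.Agent.LibRE29.Main3

set_option autoImplicit false

namespace Pool.Agent.Results.MP_b8564d_al.NormalTwoComplement

/-- Let `G` be a finite group with a solvable normal subgroup `M` of 2-power index such that no chief
factor of `G` below `M` has order two (if `A ≤ B ≤ M` are normal subgroups of `G`, then the index of `A`
in `B` is not two; for instance: `M` solvable of odd order). Assume that `G` has odd order or that
`G ⧸ M` is not cyclic, and that `G` is not the quaternion group of order 8. Then `G` is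
R-sequenceable: its non-identity elements can be cyclically listed so that all successive
quotients are distinct. -/
theorem result (G : Type) [Group G] [Fintype G] (M : Subgroup G) [M.Normal]
    (hs : Group.IsSolvable M)
    (h2 : ∀ A B : Subgroup G, A.Normal → B.Normal → A ≤ B → B ≤ M → A.relIndex B ≠ 2)
    (hn : ∃ n, M.index = 2 ^ n) (hG : Odd (Fintype.card G) ∨ ¬ IsCyclic (G ⧸ M))
    (hQ : ¬ Nonempty (G ≃* QuaternionGroup 2)) :
    ∃ f : ℕ → G,
      (∀ i, i < Fintype.card G - 1 → f i ≠ 1) ∧
      (∀ i j, i < Fintype.card G - 1 → j < Fintype.card G - 1 → f i = f j → i = j) ∧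
      (∀ i j, i < Fintype.card G - 1 → j < Fintype.card G - 1 →
        (f i)⁻¹ * f ((i + 1) % (Fintype.card G - 1)) =
          (f j)⁻¹ * f ((j + 1) % (Fintype.card G - 1)) → i = j) := by
  obtain ⟨n, hn⟩ := hn
  have hsol := LibRE.solvable_of M hs n hn
  rcases hG with hodd | hnc
  · exact LibRS.rseq_odd G hsol hodd
  have hncG : ¬ IsCyclic G := fun hc => hnc (isCyclic_of_surjective (QuotientGroup.mk' M)
    (QuotientGroup.mk'_surjective _))
  rcases LibRE.R2_main' _ G M n rfl hsol h2 hn hnc with h | h | h
  · obtain ⟨θ, x, h', h1, h2, -⟩ := h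
    exact LibRS.rseq_of_orth θ h1 h2
  · exact LibRE.rseq_four h hncG
  · exact absurd h hQ

end Pool.Agent.Results.MP_b8564d_al.NormalTwoComplement
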